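import Mathlib

set_option autoImplicit false

namespace Pool.Agent.H558Z.CFI

/-- Vertices: a root, and four vertices over each node of the binary tree. -/
abbrev V := Option (List Bool × Bool × Bool)

def co (i : Bool) (u : Bool × Bool) : Bool := if i then u.2 else u.1

def par (u : Bool × Bool) : Bool := xor u.1 u.2

/-- `down a b`: `b` is a lower neighbour of `a`. -/
def down : V → V → Prop
  | none, some (x, _) => x = []
  | some (x, u), some (y, v) => ∃ i, y = i :: x ∧ co i u = par v
  | _, none => False

def dep : V → ℕ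
  | none => 0
  | some (x, _) => x.length + 1

lemma dep_down {a b : V} (h : down a b) : dep b = dep a + 1 := by
  rcases a with _ | ⟨x, u⟩ <;> rcases b with _ | ⟨y, v⟩
  · exact h.elim
  · simp only [down] at h; subst h; rfl
  · exact h.elim
  · obtain ⟨i, rfl, -⟩ := h; simp [dep]

def G : SimpleGraph V where
  Adj a b := down a b ∨ down b a
  symm := ⟨fun _ _ h => h.symm⟩
  loopless := ⟨fun a h => by
    rcases h with h | h <;> have := dep_down h <;> omega⟩

lemma exists_up (x : List Bool) (u : Bool × Bool) : ∃ a, down a (some (x, u)) := by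
  rcases x with _ | ⟨i, x⟩
  · exact ⟨none, rfl⟩
  · exact ⟨some (x, (par u, par u)), i, rfl, by cases i <;> rfl⟩

lemma exists_walk : ∀ (n : ℕ) (a : V), dep a = n → ∃ p : G.Walk none a, p.length = n := by
  intro n
  induction n with
  | zero =>
    intro a ha
    rcases a with _ | ⟨x, u⟩
    · exact ⟨SimpleGraph.Walk.nil, rfl⟩
    · simp [dep] at ha
  | succ n ih =>
    intro a ha
    rcases a with _ | ⟨x, u⟩
    · simp [dep] at ha
    · obtain ⟨b, hb⟩ := exists_up x u
      have h1 := dep_down hb
      obtain ⟨p, hp⟩ := ih b (by omega)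
      exact ⟨p.concat (Or.inl hb), by simp [hp]⟩

lemma dep_le_walk {a b : V} (p : G.Walk a b) : dep b ≤ dep a + p.length := by
  induction p with
  | nil => simp
  | cons h p ih =>
    rcases h with h | h <;> have := dep_down h <;> simp only [SimpleGraph.Walk.length_cons] <;>
      omega

lemma connected : G.Connected := by
  have h : ∀ a, G.Reachable none a := fun a => by
    obtain ⟨p, -⟩ := exists_walk _ a rfl
    exact ⟨p⟩
  exact { preconnected := fun a b => (h a).symm.trans (h b), nonempty := ⟨none⟩ }

lemma dist_eq (a : V) : G.dist none a = dep a := by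
  apply le_antisymm
  · obtain ⟨p, hp⟩ := exists_walk _ a rfl
    exact hp ▸ SimpleGraph.dist_le p
  · obtain ⟨p, hp⟩ := connected.exists_walk_length_eq_dist none a
    have := dep_le_walk p
    simp only [dep] at this ⊢
    omega

lemma nbr_finite (a : V) : (G.neighborSet a).Finite := by
  have hlev : ∀ x : List Bool, (Set.range fun u : Bool × Bool => (some (x, u) : V)).Finite :=
    fun x => Set.finite_range _
  rcases a with _ | ⟨x, u⟩
  · refine (hlev []).subset ?_
    rintro (_ | ⟨y, v⟩) (h | h)
    · exact h.elim
    · exact h.elim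
    · simp only [down] at h; subst h; exact ⟨v, rfl⟩
    · exact h.elim
  · refine ((((hlev x.tail).union (hlev (false :: x))).union (hlev (true :: x))).insert
      none).subset ?_
    rintro (_ | ⟨y, v⟩) h
    · exact Set.mem_insert _ _
    · refine Set.mem_insert_of_mem _ ?_
      rcases h with ⟨i, rfl, -⟩ | ⟨i, rfl, -⟩
      · cases i
        · exact Or.inl (Or.inr ⟨v, rfl⟩)
        · exact Or.inr ⟨v, rfl⟩
      · exact Or.inl (Or.inl ⟨v, rfl⟩)

lemma motion (σ : G ≃g G) (hfin : {a | σ a ≠ a}.Finite) (a : V) : σ a = a := by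
  by_contra ha
  obtain ⟨m, hm, hmax⟩ := hfin.exists_maximalFor dep _ ⟨a, ha⟩
  have hm' : σ m ≠ m := hm
  have hle : ∀ b, σ b ≠ b → dep b ≤ dep m := fun b hb => by
    by_contra hlt
    push Not at hlt
    have := hmax (show b ∈ {a | σ a ≠ a} from hb) hlt.le
    omega
  have hσm : dep (σ m) ≤ dep m := hle _ fun h => hm' (σ.injective h)
  have key : ∀ b, down m b → down (σ m) b := fun b hb => by
    have h1 := dep_down hb
    have hfix : σ b = b := by
      by_contra h
      have := hle b h
      omega
    have h2 : G.Adj (σ m) (σ b) := σ.map_adj_iff.mpr (Or.inl hb)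
    rw [hfix] at h2
    rcases h2 with h2 | h2
    · exact h2
    · have := dep_down h2; omega
  rcases m with _ | ⟨x, u⟩
  · rcases hs : σ none with _ | ⟨y, v⟩
    · exact hm' hs
    · rw [hs] at hσm; simp [dep] at hσm
  · have h0 := key (some (false :: x, (u.1, false))) ⟨false, rfl, by simp [co, par]⟩
    have h1 := key (some (true :: x, (u.2, false))) ⟨true, rfl, by simp [co, par]⟩
    rcases hs : σ (some (x, u)) with _ | ⟨y, v⟩
    · rw [hs] at h0; simp [down] at h0
    · rw [hs] at h0 h1
      obtain ⟨i, hi, hi'⟩ := h0
      obtain ⟨j, hj, hj'⟩ := h1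
      simp only [List.cons.injEq] at hi hj
      obtain ⟨rfl, rfl⟩ := hi
      obtain ⟨rfl, -⟩ := hj
      apply hm'
      rw [hs]
      simp only [co, par, Bool.xor_false] at hi' hj'
      simp at hi' hj'
      rw [show v = u from Prod.ext hi' hj']

/-- Translation by a field of vectors. -/
def sh (t : List Bool → Bool × Bool) : V → V
  | none => none
  | some (x, u) => some (x, (xor u.1 (t x).1, xor u.2 (t x).2))

lemma sh_sh (t : List Bool → Bool × Bool) (a : V) : sh t (sh t a) = a := by
  rcases a with _ | ⟨x, u⟩
  · rfl
  · simp [sh]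

lemma sh_down (t : List Bool → Bool × Bool) (ht : ∀ x i, co i (t x) = par (t (i :: x)))
    {a b : V} (h : down a b) : down (sh t a) (sh t b) := by
  rcases a with _ | ⟨x, u⟩ <;> rcases b with _ | ⟨y, v⟩
  · exact h.elim
  · exact h
  · exact h.elim
  · obtain ⟨i, rfl, hi⟩ := h
    refine ⟨i, rfl, ?_⟩
    have := ht x i
    revert hi this
    rcases u with ⟨u1, u2⟩
    rcases v with ⟨v1, v2⟩
    rcases t x with ⟨a1, a2⟩
    rcases t (i :: x) with ⟨b1, b2⟩
    revert i u1 u2 v1 v2 a1 a2 b1 b2
    decide

def shIso (t : List Bool → Bool × Bool) (ht : ∀ x i, co i (t x) = par (t (i :: x))) : G ≃g G where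
  toFun := sh t
  invFun := sh t
  left_inv := sh_sh t
  right_inv := sh_sh t
  map_rel_iff' := by
    intro a b
    constructor
    · intro h
      have : G.Adj (sh t (sh t a)) (sh t (sh t b)) := h.imp (sh_down t ht) (sh_down t ht)
      rwa [sh_sh, sh_sh] at this
    · intro h
      exact h.imp (sh_down t ht) (sh_down t ht)

section Block

variable (B : List Bool → Prop)

open Classical in
noncomputable def f : ℕ → List Bool → ℝ
  | 0, _ => 0
  | J + 1, x => (if B x then 1 else 0) + (f J (false :: x) + f J (true :: x)) / 2

lemma f_nonneg (J : ℕ) (x : List Bool) : 0 ≤ f B J x := by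
  induction J generalizing x with
  | zero => exact le_rfl
  | succ J ih =>
    have := ih (false :: x); have := ih (true :: x)
    simp only [f]; split_ifs <;> linarith

lemma f_succ_le (J : ℕ) (x : List Bool) : f B J x ≤ f B (J + 1) x := by
  induction J generalizing x with
  | zero => exact f_nonneg B _ _
  | succ J ih =>
    have := ih (false :: x); have := ih (true :: x)
    rw [f, f]; linarith

lemma f_mono (x : List Bool) : Monotone fun J => f B J x :=
  monotone_nat_of_le_succ fun J => f_succ_le B J x

def Good (x : List Bool) : Prop := ∀ J, f B J x < 1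

lemma Good.not_block {x : List Bool} (h : Good B x) : ¬ B x := fun hb => by
  have := h 1
  simp [f, hb] at this

lemma Good.child {x : List Bool} (h : Good B x) : ∃ i, Good B (i :: x) := by
  by_contra hc
  push Not at hc
  have h0 := hc false
  have h1 := hc true
  simp only [Good, not_forall, not_lt] at h0 h1
  obtain ⟨J0, h0⟩ := h0
  obtain ⟨J1, h1⟩ := h1
  have a0 := f_mono B (false :: x) (le_max_left J0 J1)
  have a1 := f_mono B (true :: x) (le_max_right J0 J1)
  have := h (max J0 J1 + 1)
  simp only [f] at this a0 a1
  split_ifs at this <;> linarith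

def lev : ℕ → Finset (List Bool)
  | 0 => {[]}
  | n + 1 => (lev n).image (List.cons false) ∪ (lev n).image (List.cons true)

lemma mem_lev {n : ℕ} {x : List Bool} (h : x ∈ lev n) : x.length = n := by
  induction n generalizing x with
  | zero => simp [lev] at h; simp [h]
  | succ n ih =>
    simp only [lev, Finset.mem_union, Finset.mem_image] at h
    rcases h with ⟨y, hy, rfl⟩ | ⟨y, hy, rfl⟩ <;> simp [ih hy]

lemma sum_lev (n : ℕ) (g : List Bool → ℝ) :
    ∑ x ∈ lev (n + 1), g x = ∑ x ∈ lev n, (g (false :: x) + g (true :: x)) := by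
  rw [lev, Finset.sum_union, Finset.sum_image, Finset.sum_image, Finset.sum_add_distrib]
  · intro a _ b _ h; simpa using h
  · intro a _ b _ h; simpa using h
  · rw [Finset.disjoint_left]
    intro a ha hb
    simp only [Finset.mem_image] at ha hb
    obtain ⟨y, -, rfl⟩ := ha
    obtain ⟨z, -, hz⟩ := hb
    simp at hz

lemma card_lev (n : ℕ) : ((lev n).card : ℝ) = 2 ^ n := by
  induction n with
  | zero => simp [lev]
  | succ n ih =>
    have := sum_lev n fun _ => 1
    simp only [Finset.sum_const, nsmul_eq_mul, mul_one] at this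
    rw [this, ih]; ring

open Classical in
lemma sum_f_le (C : ℝ) (hC : ∀ n, ∑ x ∈ lev n, (if B x then (1 : ℝ) else 0) ≤ C) (J n : ℕ) :
    ∑ x ∈ lev n, f B J x ≤ 2 * C := by
  induction J generalizing n with
  | zero =>
    have : 0 ≤ C := le_trans (Finset.sum_nonneg fun x _ => by split_ifs <;> norm_num) (hC 0)
    simp only [f, Finset.sum_const_zero]; linarith
  | succ J ih =>
    have h1 := ih (n + 1)
    rw [sum_lev] at h1
    simp only [f]
    rw [Finset.sum_add_distrib, ← Finset.sum_div]
    have := hC n
    linarith

open Classical in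
lemma exists_apex (C : ℝ) (hC : ∀ n, ∑ x ∈ lev n, (if B x then (1 : ℝ) else 0) ≤ C) :
    ∃ w, ¬ B w ∧ ∀ i, Good B (i :: w) := by
  obtain ⟨n, hn⟩ := pow_unbounded_of_one_lt (4 * C) (show (1 : ℝ) < 2 by norm_num)
  have : ∃ w, ∀ J, f B J w < 1 / 2 := by
    by_contra hc
    push Not at hc
    choose Jw hJ using hc
    have h1 := sum_f_le B C hC ((lev n).sup Jw) n
    have h2 : ∑ x ∈ lev n, (1 / 2 : ℝ) ≤ ∑ x ∈ lev n, f B ((lev n).sup Jw) x :=
      Finset.sum_le_sum fun x hx => (hJ x).trans (f_mono B x (Finset.le_sup hx))
    rw [Finset.sum_const, nsmul_eq_mul, card_lev] at h2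
    linarith
  obtain ⟨w, hw⟩ := this
  refine ⟨w, fun hb => ?_, fun i J => ?_⟩
  · have := hw 1
    simp [f, hb] at this
    linarith
  · have := hw (J + 1)
    have a0 := f_nonneg B J (false :: w)
    have a1 := f_nonneg B J (true :: w)
    simp only [f] at this
    cases i <;> split_ifs at this <;> linarith

open Classical in
noncomputable def ch (x : List Bool) : Bool := if h : Good B x then (h.child B).choose else false

lemma ch_good {x : List Bool} (h : Good B x) : Good B (ch B x :: x) := by
  unfold ch
  rw [dif_pos h]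
  exact (h.child B).choose_spec

noncomputable def tr (w : List Bool) : List Bool → Bool × Bool
  | [] => if [] = w then (true, true) else (false, false)
  | i :: x => if i :: x = w then (true, true) else
      if co i (tr w x) then (!(ch B (i :: x)), ch B (i :: x)) else (false, false)

lemma tr_short (w x : List Bool) (h : x.length < w.length) : tr B w x = (false, false) := by
  induction x with
  | nil =>
    rw [tr, if_neg]
    rintro rfl; simp at h
  | cons i x ih =>
    rw [tr, if_neg, ih (by simp at h; omega)]
    · cases i <;> simp [co]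
    · rintro rfl; simp at h

lemma tr_compat (w x : List Bool) (i : Bool) : co i (tr B w x) = par (tr B w (i :: x)) := by
  rw [tr]
  split_ifs with h1 h2
  · subst h1
    rw [tr_short B _ x (by simp)]
    cases i <;> simp [co, par]
  · rw [h2]; simp [par]
  · simp only [Bool.not_eq_true] at h2
    rw [h2]; simp [par]

lemma tr_self (w : List Bool) : tr B w w = (true, true) := by
  cases w <;> simp [tr]

lemma tr_good (w : List Bool) (hw : ∀ i, Good B (i :: w)) (x : List Bool) :
    ∀ i, co i (tr B w x) = true → Good B (i :: x) := by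
  induction x with
  | nil =>
    intro i h
    rw [tr] at h
    split_ifs at h with h1
    · subst h1; exact hw i
    · cases i <;> simp [co] at h
  | cons j x ih =>
    intro i h
    rw [tr] at h
    split_ifs at h with h1 h2
    · rw [h1]; exact hw i
    · have := ch_good B (ih j h2)
      have e : i = ch B (j :: x) := by
        revert h
        cases i <;> cases ch B (j :: x) <;> simp [co]
      rw [e]; exact this
    · cases i <;> simp [co] at h

lemma tr_block (w : List Bool) (hw0 : ¬ B w) (hw : ∀ i, Good B (i :: w)) (x : List Bool)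
    (hx : B x) : tr B w x = (false, false) := by
  cases x with
  | nil =>
    rw [tr, if_neg]
    rintro rfl; exact hw0 hx
  | cons j x =>
    rw [tr, if_neg, if_neg]
    · intro h; exact (tr_good B w hw x j h).not_block B hx
    · rintro rfl; exact hw0 hx

end Block

lemma sphere_finite (r : ℕ) : {a : V | G.dist none a = r}.Finite := by
  have h1 : {x : List Bool | x.length ≤ r}.Finite := List.finite_length_le Bool r
  refine (((h1.prod (Set.finite_univ (α := Bool × Bool))).image some).insert none).subset ?_
  rintro (_ | ⟨x, u⟩) h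
  · exact Set.mem_insert _ _
  · refine Set.mem_insert_of_mem _ ⟨(x, u), ⟨?_, trivial⟩, rfl⟩
    simp only [Set.mem_ofPred_eq, dist_eq, dep] at h ⊢
    omega

theorem main (c : V → Bool) (C : ℕ)
    (hC : ∀ r, {a : V | G.dist none a = r ∧ c a = true}.ncard ≤ C) :
    ∃ σ : G ≃g G, (∀ a, c (σ a) = c a) ∧ ∃ a, σ a ≠ a := by
  classical
  let B : List Bool → Prop := fun x => ∃ u, c (some (x, u)) = true
  have hB : ∀ n, ∑ x ∈ lev n, (if B x then (1 : ℝ) else 0) ≤ C := by
    intro n
    rw [Finset.sum_boole]
    have hfin : {a : V | G.dist none a = n + 1 ∧ c a = true}.Finite :=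
      (sphere_finite (n + 1)).subset fun a ha => ha.1
    have h1 : (((lev n).filter B : Finset (List Bool)) : Set (List Bool)) ⊆
        (fun a : V => (a.map Prod.fst).getD []) ''
          {a : V | G.dist none a = n + 1 ∧ c a = true} := by
      intro x hx
      simp only [Finset.coe_filter, Set.mem_ofPred_eq] at hx
      obtain ⟨hx, u, hu⟩ := hx
      exact ⟨some (x, u), ⟨by simp [dist_eq, dep, mem_lev hx], hu⟩, rfl⟩
    have h2 := Set.ncard_le_ncard h1 (hfin.image _)
    rw [Set.ncard_coe_finset] at h2
    have h3 := (h2.trans (Set.ncard_image_le hfin)).trans (hC (n + 1))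
    exact_mod_cast h3
  obtain ⟨w, hw0, hw⟩ := exists_apex B C (fun n => by convert hB n)
  refine ⟨shIso (tr B w) (tr_compat B w), ?_, some (w, (false, false)), ?_⟩
  · rintro (_ | ⟨x, u⟩)
    · rfl
    · change c (some (x, (xor u.1 (tr B w x).1, xor u.2 (tr B w x).2))) = _
      by_cases hx : B x
      · rw [tr_block B w hw0 hw x hx]; simp
      · simp only [B, not_exists, Bool.not_eq_true] at hx
        rw [hx, hx]
  · change some (w, (xor false (tr B w w).1, xor false (tr B w w).2)) ≠ _
    rw [tr_self]; simp

end Pool.Agent.H558Z.CFI
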